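import Mathlib

set_option autoImplicit false

namespace Pool.Agent.Q181.ML

open PowerSeries Finset

/-- coefficient of `z^n` in `(1 - z)^(-g)` -/
noncomputable def b (g : ℝ) : ℕ → ℝ
  | 0 => 1
  | n + 1 => b g n * ((g + n) / (n + 1))

lemma b_zero (g : ℝ) : b g 0 = 1 := rfl

lemma b_succ (g : ℝ) (n : ℕ) : b g (n + 1) = b g n * ((g + n) / (n + 1)) := rfl

lemma b_rec (g : ℝ) (n : ℕ) : b g (n + 1) * (n + 1) = b g n * (g + n) := by
  rw [b_succ]
  have : (n : ℝ) + 1 ≠ 0 := by positivity
  field_simp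

lemma b_nonneg {g : ℝ} (hg : 0 ≤ g) (n : ℕ) : 0 ≤ b g n := by
  induction n with
  | zero => rw [b_zero]; norm_num
  | succ n ih => rw [b_succ]; positivity

/-- `(1 - z)^(-g)` as a power series -/
noncomputable def P (g : ℝ) : ℝ⟦X⟧ := PowerSeries.mk (b g)

@[simp] lemma coeff_P (g : ℝ) (n : ℕ) : coeff n (P g) = b g n := by simp [P]

lemma P_mul (g h : ℝ) : P g * P h = P (g + h) := by
  have key : ∀ g : ℝ, (1 - X) * derivative ℝ (P g) = C g * P g := by
    intro g
    ext n
    rw [sub_mul, one_mul, map_sub, coeff_C_mul, coeff_P, coeff_derivative, coeff_P]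
    rcases n with _ | n
    · have := b_rec g 0
      simp only [coeff_zero_X_mul]
      push_cast at this ⊢
      linarith
    · rw [coeff_succ_X_mul, coeff_derivative, coeff_P]
      have := b_rec g (n + 1)
      push_cast at this ⊢
      linarith
  set F := P g * P h with hF
  have hd : (1 - X) * derivative ℝ F = C (g + h) * F := by
    have h1 := key g
    have h2 := key h
    have h3 : derivative ℝ F = P g * derivative ℝ (P h) + P h * derivative ℝ (P g) := by
      rw [hF, Derivation.leibniz, smul_eq_mul, smul_eq_mul]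
    rw [h3, map_add]
    linear_combination (P h) * h1 + (P g) * h2
  have hc : ∀ n : ℕ, coeff n F = b (g + h) n := by
    intro n
    induction n with
    | zero => rw [b_zero, hF, coeff_zero_eq_constantCoeff_apply, map_mul,
        ← coeff_zero_eq_constantCoeff_apply, ← coeff_zero_eq_constantCoeff_apply, coeff_P, coeff_P,
        b_zero, b_zero]; norm_num
    | succ n ih =>
      have h1 := congrArg (coeff n) hd
      rw [sub_mul, one_mul, map_sub, coeff_C_mul, coeff_derivative] at h1
      have h2 : coeff n (X * derivative ℝ F) = coeff n F * n := by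
        rcases n with _ | n
        · simp
        · rw [coeff_succ_X_mul, coeff_derivative]; push_cast; ring
      rw [h2] at h1
      have h3 := b_rec (g + h) n
      have h4 : (n : ℝ) + 1 ≠ 0 := by positivity
      rw [← ih] at h3
      have h5 : (coeff (n + 1) F - b (g + h) (n + 1)) * ((n : ℝ) + 1) = 0 := by
        linarith
      rcases mul_eq_zero.1 h5 with h6 | h6
      · linarith
      · exact absurd h6 h4
  ext n
  rw [hc, coeff_P]

lemma P_zero : P 0 = 1 := by
  ext n
  rw [coeff_P, coeff_one]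
  rcases n with _ | n
  · simp [b_zero]
  · have : b 0 (n + 1) = 0 := by
      induction n with
      | zero => rw [b_succ, b_zero]; norm_num
      | succ n ih => rw [b_succ, ih, zero_mul]
    simp [this]

/-- `1 - (1 - z)^a` -/
noncomputable def S (a : ℝ) : ℝ⟦X⟧ := 1 - P (-a)

/-- nonnegative coefficients -/
def Nn (F : ℝ⟦X⟧) : Prop := ∀ n, 0 ≤ coeff n F

lemma Nn.mul {F G : ℝ⟦X⟧} (hF : Nn F) (hG : Nn G) : Nn (F * G) := by
  intro n
  rw [coeff_mul]
  exact Finset.sum_nonneg (fun p _ => mul_nonneg (hF _) (hG _))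

lemma Nn.one : Nn 1 := by
  intro n
  rw [coeff_one]
  split_ifs <;> norm_num

lemma Nn.pow {F : ℝ⟦X⟧} (hF : Nn F) (m : ℕ) : Nn (F ^ m) := by
  induction m with
  | zero => rw [pow_zero]; exact Nn.one
  | succ m ih => rw [pow_succ]; exact ih.mul hF

lemma Nn_P {g : ℝ} (hg : 0 ≤ g) : Nn (P g) := fun n => by
  rw [coeff_P]; exact b_nonneg hg n

lemma coeff_S_zero (a : ℝ) : coeff 0 (S a) = 0 := by
  rw [S, map_sub, coeff_P, b_zero, coeff_one]; simp

lemma b_neg_nonpos {a : ℝ} (h0 : 0 ≤ a) (h1 : a ≤ 1) (n : ℕ) : b (-a) (n + 1) ≤ 0 := by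
  induction n with
  | zero => rw [b_succ, b_zero]; norm_num; exact h0
  | succ n ih =>
    rw [b_succ]
    apply mul_nonpos_of_nonpos_of_nonneg ih
    push_cast
    apply div_nonneg
    · have : (0 : ℝ) ≤ n := Nat.cast_nonneg n
      linarith
    · positivity

lemma Nn_S {a : ℝ} (h0 : 0 ≤ a) (h1 : a ≤ 1) : Nn (S a) := by
  intro n
  rcases n with _ | n
  · rw [coeff_S_zero]
  · rw [S, map_sub, coeff_P, coeff_one]
    have := b_neg_nonpos h0 h1 n
    simp
    linarith

/-- order at least `m` -/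
def Od (m : ℕ) (F : ℝ⟦X⟧) : Prop := ∀ n, n < m → coeff n F = 0

lemma Od.mul {m k : ℕ} {F G : ℝ⟦X⟧} (hF : Od m F) (hG : Od k G) : Od (m + k) (F * G) := by
  intro n hn
  rw [coeff_mul]
  apply Finset.sum_eq_zero
  intro p hp
  rw [Finset.HasAntidiagonal.mem_antidiagonal] at hp
  by_cases h : p.1 < m
  · rw [hF _ h, zero_mul]
  · rw [hG p.2 (by omega), mul_zero]

lemma Od.zero (F : ℝ⟦X⟧) : Od 0 F := fun n hn => absurd hn (by omega)

lemma Od.pow {F : ℝ⟦X⟧} (hF : Od 1 F) (m : ℕ) : Od m (F ^ m) := by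
  induction m with
  | zero => exact Od.zero _
  | succ m ih => rw [pow_succ]; exact ih.mul hF

lemma Od_S (a : ℝ) : Od 1 (S a) := by
  intro n hn
  have : n = 0 := by omega
  rw [this, coeff_S_zero]

/-- Expansion of `(1-z)^(beta-1) / ((1-z)^beta + s)` in powers of `1/(1+s)`. -/
lemma coeff_expand {be s : ℝ} (hs : 0 ≤ s) {x : ℝ⟦X⟧}
    (hx : (P (-be) + C s) * x = P (1 - be)) (i : ℕ) :
    coeff i x = ∑ m ∈ range (i + 1), coeff i (P (1 - be) * S be ^ m) * (1 / (1 + s)) ^ (m + 1) := by
  set r : ℝ := 1 / (1 + s) with hr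
  have hrs : r * (1 + s) = 1 := by rw [hr]; field_simp
  have h1 : (1 - C r * S be) * x = C r * P (1 - be) := by
    have hP : P (-be) = 1 - S be := by rw [S]; ring
    rw [hP] at hx
    have hC : C r * (1 + C s) = (1 : ℝ⟦X⟧) := by
      rw [← map_one (C (R := ℝ)), ← map_add, ← map_mul, hrs, map_one]
    linear_combination (C r) * hx - x * hC
  have h2 : x = C r * P (1 - be) * (∑ m ∈ range (i + 1), (C r * S be) ^ m)
      + x * (C r * S be) ^ (i + 1) := by
    have h3 := mul_neg_geom_sum (C r * S be) (i + 1)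
    linear_combination (∑ m ∈ range (i + 1), (C r * S be) ^ m) * h1 - x * h3
  have h4 : coeff i (x * (C r * S be) ^ (i + 1)) = 0 := by
    have h5 : Od 1 (C r * S be) := by
      have := (Od.zero (C r)).mul (Od_S be)
      simpa using this
    have h6 : Od (0 + (i + 1)) (x * (C r * S be) ^ (i + 1)) := (Od.zero x).mul (h5.pow (i + 1))
    exact h6 i (by omega)
  have h7 := congrArg (coeff i) h2
  rw [map_add, h4, add_zero, mul_sum, map_sum] at h7
  rw [h7]
  apply Finset.sum_congr rfl
  intro m _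
  rw [mul_pow, ← map_pow]
  have : C r * P (1 - be) * (C (r ^ m) * S be ^ m) = C (r ^ (m + 1)) * (P (1 - be) * S be ^ m) := by
    rw [pow_succ, map_mul]; ring
  rw [this, coeff_C_mul]
  ring

end Pool.Agent.Q181.ML
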