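import Pool.Agent.Q181.ML.Alg

set_option autoImplicit false

namespace Pool.Agent.Q181.ML

open PowerSeries Finset

/-- power series in `w` over power series in `z` -/
abbrev K := (ℝ⟦X⟧)⟦X⟧

/-- a series in `z` -/
noncomputable def cz (F : ℝ⟦X⟧) : K := C F

/-- a series in `w` -/
noncomputable def cw (F : ℝ⟦X⟧) : K := PowerSeries.map (C (R := ℝ)) F

lemma coeff_cz_mul (F : ℝ⟦X⟧) (G : K) (i j : ℕ) :
    coeff i (coeff j (cz F * G)) = ∑ p ∈ antidiagonal i, coeff p.1 F * coeff p.2 (coeff j G) := by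
  rw [cz, coeff_C_mul, coeff_mul]

lemma coeff_cw_mul (F : ℝ⟦X⟧) (G : K) (i j : ℕ) :
    coeff i (coeff j (cw F * G)) = ∑ p ∈ antidiagonal j, coeff p.1 F * coeff i (coeff p.2 G) := by
  rw [cw, coeff_mul, map_sum]
  apply Finset.sum_congr rfl
  intro p _
  rw [coeff_map, coeff_C_mul]

/-- nonnegative coefficients -/
def Nn2 (F : K) : Prop := ∀ i j, 0 ≤ coeff i (coeff j F)

lemma Nn2.mul {F G : K} (hF : Nn2 F) (hG : Nn2 G) : Nn2 (F * G) := by
  intro i j
  rw [coeff_mul, map_sum]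
  apply Finset.sum_nonneg
  intro q _
  rw [coeff_mul]
  exact Finset.sum_nonneg (fun p _ => mul_nonneg (hF _ _) (hG _ _))

lemma Nn2.add {F G : K} (hF : Nn2 F) (hG : Nn2 G) : Nn2 (F + G) := by
  intro i j
  rw [map_add, map_add]
  exact add_nonneg (hF _ _) (hG _ _)

lemma Nn2_cz {F : ℝ⟦X⟧} (hF : Nn F) : Nn2 (cz F) := by
  intro i j
  rw [cz, coeff_C]
  split_ifs
  · exact hF i
  · simp

lemma Nn2_cw {F : ℝ⟦X⟧} (hF : Nn F) : Nn2 (cw F) := by
  intro i j
  rw [cw, coeff_map, coeff_C]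
  split_ifs
  · exact hF j
  · exact le_rfl

lemma Nn2.pow {F : K} (hF : Nn2 F) (m : ℕ) : Nn2 (F ^ m) := by
  induction m with
  | zero =>
    rw [pow_zero]
    have : (1 : K) = cz 1 := by rw [cz, map_one]
    rw [this]
    exact Nn2_cz Nn.one
  | succ m ih => rw [pow_succ]; exact ih.mul hF

lemma Nn2.sum {ι : Type*} (s : Finset ι) (F : ι → K) (h : ∀ i ∈ s, Nn2 (F i)) :
    Nn2 (∑ i ∈ s, F i) := by
  intro i j
  rw [map_sum, map_sum]
  exact Finset.sum_nonneg (fun k hk => h k hk i j)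

/-- total order at least `m` -/
def Od2 (m : ℕ) (F : K) : Prop := ∀ i j, i + j < m → coeff i (coeff j F) = 0

lemma Od2.mul {m k : ℕ} {F G : K} (hF : Od2 m F) (hG : Od2 k G) : Od2 (m + k) (F * G) := by
  intro i j hij
  rw [coeff_mul, map_sum]
  apply Finset.sum_eq_zero
  intro q hq
  rw [coeff_mul]
  apply Finset.sum_eq_zero
  intro p hp
  rw [Finset.HasAntidiagonal.mem_antidiagonal] at hp hq
  by_cases h : p.1 + q.1 < m
  · rw [hF _ _ h, zero_mul]
  · rw [hG p.2 q.2 (by omega), mul_zero]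

lemma Od2.zero (F : K) : Od2 0 F := fun i j hn => absurd hn (by omega)

lemma Od2.pow {F : K} (hF : Od2 1 F) (m : ℕ) : Od2 m (F ^ m) := by
  induction m with
  | zero => exact Od2.zero _
  | succ m ih => rw [pow_succ]; exact ih.mul hF

/-- `1/2` -/
noncomputable def hf : K := cz (C (1 / 2))

lemma hf_two : 2 * hf = 1 := by
  have h1 : cz (C (1 / 2)) + cz (C (1 / 2)) = 1 := by
    rw [cz, ← map_add, ← map_add]
    norm_num
  rw [hf]
  linear_combination h1

/-- `2 - (1-z)^a - (1-w)^a` -/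
noncomputable def N (a : ℝ) : K := cz (S a) + cw (S a)

lemma Od2_N (a : ℝ) : Od2 1 (N a) := by
  intro i j hij
  have hi : i = 0 := by omega
  have hj : j = 0 := by omega
  subst hi; subst hj
  rw [N, map_add, map_add, cz, cw, coeff_map, coeff_zero_C, coeff_zero_C, coeff_S_zero]
  norm_num

/-- truncated inverse of `(1-z)^a + (1-w)^a` -/
noncomputable def U (a : ℝ) (n : ℕ) : K := ∑ k ∈ range (2 * n + 1), (hf * N a) ^ k * hf

lemma U_spec (a : ℝ) (n : ℕ) :
    (cz (P (-a)) + cw (P (-a))) * U a n = 1 - (hf * N a) ^ (2 * n + 1) := by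
  have h1 : cz (P (-a)) + cw (P (-a)) = 2 - N a := by
    have h2 : P (-a) = 1 - S a := by rw [S]; ring
    rw [h2, N, cz, cz, cw, cw, map_sub, map_sub, map_one, map_one]
    ring
  have h3 := mul_neg_geom_sum (hf * N a) (2 * n + 1)
  rw [h1, U, ← sum_mul]
  linear_combination h3 + (∑ k ∈ range (2 * n + 1), (hf * N a) ^ k) * hf_two

lemma Nn2_hf : Nn2 hf := by
  apply Nn2_cz
  intro n
  rw [coeff_C]
  split_ifs <;> norm_num

lemma Nn2_U {a : ℝ} (h0 : 0 ≤ a) (h1 : a ≤ 1) (n : ℕ) : Nn2 (U a n) := by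
  apply Nn2.sum
  intro k _
  exact ((Nn2_hf.mul ((Nn2_cz (Nn_S h0 h1)).add (Nn2_cw (Nn_S h0 h1)))).pow k).mul Nn2_hf

/-- the weights -/
noncomputable def wt (a : ℝ) (n i : ℕ) : ℝ :=
  coeff (n - i) (coeff n (cw (P (1 - a)) * U a n)) + coeff n (coeff (n - i) (cz (P (1 - a)) * U a n))

lemma wt_nonneg {a : ℝ} (h0 : 0 ≤ a) (h1 : a ≤ 1) (n i : ℕ) : 0 ≤ wt a n i := by
  have hP : Nn (P (1 - a)) := Nn_P (by linarith)
  exact add_nonneg (((Nn2_cw hP).mul (Nn2_U h0 h1 n)) _ _) (((Nn2_cz hP).mul (Nn2_U h0 h1 n)) _ _)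

/-- **The positivity identity.** -/
lemma square_expand {a s : ℝ} (hs : 0 ≤ s) {x u : ℝ⟦X⟧}
    (hx : (P (-(2 * a)) + C s) * x = P (1 - 2 * a))
    (hu : (P (-(2 * a)) + C s) * u = P (1 - a)) (n : ℕ) :
    (coeff n x) ^ 2 + s * (coeff n u) ^ 2 = ∑ i ∈ range (n + 1), wt a n i * coeff i x := by
  have hPa : P (-a) * P (-a) = P (-(2 * a)) := by rw [P_mul]; congr 1; ring
  have hPb : P (-a) * P (1 - a) = P (1 - 2 * a) := by rw [P_mul]; congr 1; ring
  have hne : P (-(2 * a)) + C s ≠ 0 := by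
    intro h
    have h2 := congrArg (coeff 0) h
    rw [map_add, coeff_P, b_zero, coeff_zero_C, map_zero] at h2
    linarith
  have hxu : x = P (-a) * u := by
    apply mul_left_cancel₀ hne
    rw [hx]
    linear_combination (-1 : ℝ⟦X⟧) * hPb - P (-a) * hu
  have hcz : ∀ F G : ℝ⟦X⟧, cz (F * G) = cz F * cz G := fun F G => by rw [cz, map_mul]; rfl
  have hcw : ∀ F G : ℝ⟦X⟧, cw (F * G) = cw F * cw G := fun F G => by rw [cw, map_mul]; rfl
  have hsz : cw (C s) = cz (C s) := by rw [cz, cw, map_C]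
  have e1 : (cz (P (-a)) * cz (P (-a)) + cz (C s)) * cz u = cz (P (1 - a)) := by
    rw [← hcz, hPa]
    have : cz (P (-(2 * a))) + cz (C s) = cz (P (-(2 * a)) + C s) := by rw [cz, cz, cz, map_add]
    rw [this, ← hcz, hu]
  have e2 : (cw (P (-a)) * cw (P (-a)) + cz (C s)) * cw u = cw (P (1 - a)) := by
    rw [← hcw, hPa, ← hsz]
    have : cw (P (-(2 * a))) + cw (C s) = cw (P (-(2 * a)) + C s) := by rw [cw, cw, cw, map_add]
    rw [this, ← hcw, hu]
  have e3 : cz x = cz (P (-a)) * cz u := by rw [hxu, hcz]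
  have e4 : cw x = cw (P (-a)) * cw u := by rw [hxu, hcw]
  set A := cz (P (-a)) with hA
  set B := cw (P (-a)) with hB
  set G : K := cz x * cw x + cz (C s) * (cz u * cw u) with hG
  have e5 : G * (A + B) = cz x * cw (P (1 - a)) + cw x * cz (P (1 - a)) := by
    rw [hG, ← e1, ← e2, e3, e4]
    ring
  have e6 : G = (cz x * cw (P (1 - a)) + cw x * cz (P (1 - a))) * U a n
      + G * (hf * N a) ^ (2 * n + 1) := by
    have h := U_spec a n
    rw [← hA, ← hB] at h
    rw [← e5]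
    linear_combination (-G) * h
  have e7 : coeff n (coeff n (G * (hf * N a) ^ (2 * n + 1))) = 0 := by
    have h5 : Od2 1 (hf * N a) := by
      have := (Od2.zero hf).mul (Od2_N a)
      simpa using this
    have h6 : Od2 (0 + (2 * n + 1)) (G * (hf * N a) ^ (2 * n + 1)) :=
      (Od2.zero G).mul (h5.pow _)
    exact h6 n n (by omega)
  have e8 : coeff n (coeff n G) = (coeff n x) ^ 2 + s * (coeff n u) ^ 2 := by
    have h1 : coeff n (coeff n (cz x * cw x)) = coeff n x * coeff n x := by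
      rw [cz, coeff_C_mul, cw, coeff_map, mul_comm, coeff_C_mul]
    have h2 : coeff n (coeff n (cz (C s) * (cz u * cw u))) = s * (coeff n u * coeff n u) := by
      rw [cz, coeff_C_mul, coeff_C_mul, cz, coeff_C_mul, cw, coeff_map, mul_comm u, coeff_C_mul]
    rw [hG, map_add, map_add, h1, h2]
    ring
  rw [← e8, e6, map_add, map_add, e7, add_zero, add_mul, map_add, map_add, mul_assoc, mul_assoc,
    coeff_cz_mul, coeff_cw_mul]
  rw [Finset.Nat.sum_antidiagonal_eq_sum_range_succ (fun i j => coeff i x *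
      coeff j (coeff n (cw (P (1 - a)) * U a n))) n,
    Finset.Nat.sum_antidiagonal_eq_sum_range_succ (fun i j => coeff i x *
      coeff n (coeff j (cz (P (1 - a)) * U a n))) n, ← sum_add_distrib]
  apply Finset.sum_congr rfl
  intro i _
  rw [wt]
  ring

/-- The square sum is a nonnegative combination of powers of `1/(1+s)`. -/
lemma square_expand' {a : ℝ} (h0 : 0 ≤ a) (h1 : a ≤ 1 / 2) (n : ℕ) :
    ∃ h : ℕ → ℝ, (∀ m, 0 ≤ h m) ∧ ∀ s : ℝ, 0 ≤ s → ∀ x u : ℝ⟦X⟧,
      (P (-(2 * a)) + C s) * x = P (1 - 2 * a) → (P (-(2 * a)) + C s) * u = P (1 - a) →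
      (coeff n x) ^ 2 + s * (coeff n u) ^ 2
        = ∑ m ∈ range (n + 1), h m * (1 / (1 + s)) ^ (m + 1) := by
  refine ⟨fun m => ∑ i ∈ range (n + 1), if m ≤ i then
      wt a n i * coeff i (P (1 - 2 * a) * S (2 * a) ^ m) else 0, ?_, ?_⟩
  · intro m
    apply Finset.sum_nonneg
    intro i _
    split_ifs
    · apply mul_nonneg (wt_nonneg h0 (by linarith) n i)
      exact ((Nn_P (by linarith)).mul ((Nn_S (by linarith) (by linarith)).pow m)) i
    · exact le_rfl
  · intro s hs x u hx hu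
    rw [square_expand hs hx hu]
    have : ∀ i ∈ range (n + 1), wt a n i * coeff i x = ∑ m ∈ range (n + 1), (if m ≤ i then
        wt a n i * coeff i (P (1 - 2 * a) * S (2 * a) ^ m) else 0) * (1 / (1 + s)) ^ (m + 1) := by
      intro i hi
      rw [coeff_expand hs hx, mul_sum]
      have hi' : i + 1 ≤ n + 1 := by
        have := Finset.mem_range.1 hi
        omega
      rw [← Finset.sum_subset (Finset.range_subset_range.2 hi')]
      · apply Finset.sum_congr rfl
        intro m hm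
        have : m ≤ i := by
          have := Finset.mem_range.1 hm
          omega
        rw [if_pos this]
        ring
      · intro m _ hm
        have : ¬ m ≤ i := by
          intro h
          exact hm (Finset.mem_range.2 (by omega))
        rw [if_neg this, zero_mul]
    rw [Finset.sum_congr rfl this, Finset.sum_comm]
    apply Finset.sum_congr rfl
    intro m _
    rw [sum_mul]

end Pool.Agent.Q181.ML
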