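import Pool.Agent.Q181.ML.Lim

set_option autoImplicit false

namespace Pool.Agent.Q181.ML

open Finset Filter Topology

/-- `(1 - shift by h)^j` applied to `f` -/
def D (h : ℝ) : ℕ → (ℝ → ℝ) → ℝ → ℝ
  | 0, f => f
  | j + 1, f => D h j (fun t => f t - f (t + h))

lemma D_congr {h : ℝ} (hh : 0 < h) (j : ℕ) : ∀ {f g : ℝ → ℝ}, (∀ t, 0 ≤ t → f t = g t) →
    ∀ t, 0 ≤ t → D h j f t = D h j g t := by
  induction j with
  | zero => intro f g hfg t ht; exact hfg t ht
  | succ j ih =>
    intro f g hfg t ht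
    apply ih _ t ht
    intro s hs
    rw [hfg s hs, hfg (s + h) (by linarith)]

lemma D_add (h : ℝ) (j : ℕ) : ∀ (f g : ℝ → ℝ) (t : ℝ),
    D h j (fun t => f t + g t) t = D h j f t + D h j g t := by
  induction j with
  | zero => intro f g t; rfl
  | succ j ih =>
    intro f g t
    have : (fun t => f t + g t - (f (t + h) + g (t + h)))
      = fun t => (f t - f (t + h)) + (g t - g (t + h)) := by funext t; ring
    simp only [D]
    rw [this, ih]

lemma D_smul (h : ℝ) (j : ℕ) (c : ℝ) : ∀ (f : ℝ → ℝ) (t : ℝ),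
    D h j (fun t => c * f t) t = c * D h j f t := by
  induction j with
  | zero => intro f t; rfl
  | succ j ih =>
    intro f t
    have : (fun t => c * f t - c * f (t + h)) = fun t => c * (f t - f (t + h)) := by
      funext t; ring
    simp only [D]
    rw [this, ih]

lemma D_zero (h : ℝ) (j : ℕ) (t : ℝ) : D h j (fun _ => 0) t = 0 := by
  have := D_smul h j 0 (fun _ => (0 : ℝ)) t
  simpa using this

lemma D_sum (h : ℝ) (j : ℕ) {ι : Type*} (s : Finset ι) (f : ι → ℝ → ℝ) (t : ℝ) :
    D h j (fun t => ∑ i ∈ s, f i t) t = ∑ i ∈ s, D h j (f i) t := by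
  classical
  induction s using Finset.induction_on with
  | empty => simpa using D_zero h j t
  | insert a s ha ih =>
    have : (fun t => ∑ i ∈ insert a s, f i t) = fun t => f a t + ∑ i ∈ s, f i t := by
      funext t
      rw [Finset.sum_insert ha]
    rw [this, D_add, ih, Finset.sum_insert ha]

lemma D_shift (h : ℝ) (j : ℕ) : ∀ (f : ℝ → ℝ) (t : ℝ),
    D h j (fun t => f (t + h)) t = D h j f (t + h) := by
  induction j with
  | zero => intro f t; rfl
  | succ j ih =>
    intro f t
    simp only [D]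
    exact ih (fun t => f t - f (t + h)) t

lemma D_tendsto {h : ℝ} (hh : 0 < h) (j : ℕ) : ∀ {G : ℕ → ℝ → ℝ} {f : ℝ → ℝ},
    (∀ t, 0 ≤ t → Tendsto (fun n => G n t) atTop (𝓝 (f t))) →
    ∀ t, 0 ≤ t → Tendsto (fun n => D h j (G n) t) atTop (𝓝 (D h j f t)) := by
  induction j with
  | zero => intro G f hG t ht; exact hG t ht
  | succ j ih =>
    intro G f hG t ht
    simp only [D]
    exact ih (fun s hs => (hG s hs).sub (hG (s + h) (by linarith))) t ht

/-- nonnegative differences up to order `j` -/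
def Cm (h : ℝ) (j : ℕ) (f : ℝ → ℝ) : Prop := ∀ i, i ≤ j → ∀ t, 0 ≤ t → 0 ≤ D h i f t

lemma Cm.mono {h : ℝ} {i j : ℕ} {f : ℝ → ℝ} (hij : i ≤ j) (hf : Cm h j f) : Cm h i f :=
  fun k hk => hf k (hk.trans hij)

lemma Cm.shift {h : ℝ} (hh : 0 < h) {j : ℕ} {f : ℝ → ℝ} (hf : Cm h j f) :
    Cm h j (fun t => f (t + h)) := by
  intro i hi t ht
  rw [D_shift]
  exact hf i hi _ (by linarith)

lemma Cm.diff {h : ℝ} {j : ℕ} {f : ℝ → ℝ} (hf : Cm h (j + 1) f) :
    Cm h j (fun t => f t - f (t + h)) := by
  intro i hi t ht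
  exact hf (i + 1) (by omega) t ht

lemma Cm.mul {h : ℝ} (hh : 0 < h) {j : ℕ} : ∀ {f g : ℝ → ℝ}, Cm h j f → Cm h j g →
    Cm h j (fun t => f t * g t) := by
  induction j with
  | zero =>
    intro f g hf hg i hi t ht
    have hi0 : i = 0 := by omega
    subst hi0
    exact mul_nonneg (hf 0 le_rfl t ht) (hg 0 le_rfl t ht)
  | succ j ih =>
    intro f g hf hg i hi t ht
    rcases Nat.lt_or_ge j i with h1 | h1
    · have hij : i = j + 1 := by omega
      subst hij
      simp only [D]
      have : (fun t => f t * g t - f (t + h) * g (t + h))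
          = fun t => (f t - f (t + h)) * g t + f (t + h) * (g t - g (t + h)) := by
        funext t; ring
      rw [this, D_add]
      apply add_nonneg
      · exact ih hf.diff (hg.mono (by omega)) j le_rfl t ht
      · exact ih ((hf.mono (by omega)).shift hh) hg.diff j le_rfl t ht
    · exact ih (hf.mono (by omega)) (hg.mono (by omega)) i h1 t ht

lemma Cm_base {h : ℝ} (hh : 0 < h) {c : ℝ} (hc : 0 ≤ c) (j : ℕ) :
    Cm h j (fun t => 1 / (1 + c * t)) := by
  induction j with
  | zero =>
    intro i hi t ht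
    have hi0 : i = 0 := by omega
    subst hi0
    simp only [D]
    positivity
  | succ j ih =>
    intro i hi t ht
    rcases Nat.lt_or_ge j i with h1 | h1
    · have hij : i = j + 1 := by omega
      subst hij
      simp only [D]
      have h2 : ∀ s : ℝ, 0 ≤ s → 1 / (1 + c * s) - 1 / (1 + c * (s + h))
          = (c * h) * (1 / (1 + c * s) * (1 / (1 + c * (s + h)))) := by
        intro s hs
        have e1 : 0 < 1 + c * s := by positivity
        have e2 : 0 < 1 + c * (s + h) := by positivity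
        field_simp
        ring
      rw [D_congr hh j h2 t ht, D_smul]
      apply mul_nonneg (by positivity)
      exact ih.mul hh (ih.shift hh) j le_rfl t ht
    · exact ih i h1 t ht

lemma Cm_pow {h : ℝ} (hh : 0 < h) {c : ℝ} (hc : 0 ≤ c) (j m : ℕ) :
    Cm h j (fun t => (1 / (1 + c * t)) ^ (m + 1)) := by
  induction m with
  | zero => simpa using Cm_base hh hc j
  | succ m ih =>
    have : (fun t => (1 / (1 + c * t)) ^ (m + 1 + 1))
        = fun t => (1 / (1 + c * t)) ^ (m + 1) * (1 / (1 + c * t)) := by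
      funext t; rw [pow_succ]
    rw [this]
    exact ih.mul hh (Cm_base hh hc j)

lemma IsLim.D_nonneg {f : ℝ → ℝ} (hf : IsLim f) {h : ℝ} (hh : 0 < h) (j : ℕ) {t : ℝ}
    (ht : 0 ≤ t) : 0 ≤ D h j f t := by
  obtain ⟨w, e, hw, he, hlim⟩ := hf
  have h1 := D_tendsto hh j hlim t ht
  apply ge_of_tendsto h1
  filter_upwards with n
  rw [D_sum]
  apply Finset.sum_nonneg
  intro m _
  rw [D_smul]
  exact mul_nonneg (hw n m) (Cm_pow hh (he n) j m j le_rfl t ht)

/-- mean value theorem for iterated differences -/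
lemma D_mvt (j : ℕ) : ∀ {f : ℝ → ℝ}, ContDiff ℝ ⊤ f → ∀ {h : ℝ}, 0 < h → ∀ t : ℝ,
    ∃ x ∈ Set.Icc t (t + j * h), D h j f t = (-1) ^ j * h ^ j * iteratedDeriv j f x := by
  induction j with
  | zero =>
    intro f hf h hh t
    refine ⟨t, ⟨le_rfl, by simp⟩, by simp [D]⟩
  | succ j ih =>
    intro f hf h hh t
    have hf2 : ContDiff ℝ ⊤ (fun t => f (t + h)) := hf.comp (contDiff_id.add contDiff_const)
    obtain ⟨x, hx, hxe⟩ := ih (hf.sub hf2) hh t
    have e1 : iteratedDeriv j (fun t => f t - f (t + h)) x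
        = iteratedDeriv j f x - iteratedDeriv j f (x + h) := by
      have h1 : iteratedDeriv j (f - fun t => f (t + h)) x
          = iteratedDeriv j f x - iteratedDeriv j (fun t => f (t + h)) x :=
        iteratedDeriv_sub (hf.of_le le_top).contDiffAt (hf2.of_le le_top).contDiffAt
      have h2 := congrFun (iteratedDeriv_comp_add_const j f h) x
      rw [← h2]
      exact h1
    have hd : Differentiable ℝ (iteratedDeriv j f) :=
      hf.differentiable_iteratedDeriv j (by exact_mod_cast lt_top_iff_ne_top.2 (by simp))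
    obtain ⟨y, hy, hye⟩ := exists_deriv_eq_slope (iteratedDeriv j f) (show x < x + h by linarith)
      hd.continuous.continuousOn hd.differentiableOn
    refine ⟨y, ⟨hx.1.trans hy.1.le, ?_⟩, ?_⟩
    · have := hy.2
      have := hx.2
      push_cast
      linarith
    · simp only [D]
      have hxe' : D h j (fun t => f t - f (t + h)) t
          = (-1) ^ j * h ^ j * iteratedDeriv j (fun t => f t - f (t + h)) x := hxe
      rw [hxe', e1, iteratedDeriv_succ, hye]
      have : x + h - x = h := by ring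
      rw [this, pow_succ, pow_succ]
      field_simp
      ring

lemma IsLim.deriv_sign {f : ℝ → ℝ} (hf : IsLim f) (hs : ContDiff ℝ ⊤ f) (j : ℕ) {t : ℝ}
    (ht : 0 ≤ t) : 0 ≤ (-1) ^ j * iteratedDeriv j f t := by
  by_contra hcon
  push Not at hcon
  have hcont : Continuous (fun x => (-1) ^ j * iteratedDeriv j f x) :=
    continuous_const.mul (hs.continuous_iteratedDeriv j le_top)
  have hev : ∀ᶠ x in 𝓝 t, (-1) ^ j * iteratedDeriv j f x < 0 :=
    hcont.continuousAt.eventually_lt continuousAt_const hcon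
  obtain ⟨ε, hε, hball⟩ := Metric.eventually_nhds_iff.1 hev
  set h : ℝ := ε / (j + 1) / 2 with hh
  have hj : (0 : ℝ) ≤ j := Nat.cast_nonneg j
  have hpos : 0 < h := by positivity
  obtain ⟨x, hx, hxe⟩ := D_mvt j hs hpos t
  have h1 := hf.D_nonneg hpos j ht
  have h2 : (-1) ^ j * iteratedDeriv j f x < 0 := by
    apply hball
    rw [Real.dist_eq, abs_of_nonneg (by linarith [hx.1])]
    have h3 : (j : ℝ) * h < ε := by
      have h4 : (j + 1 : ℝ) * h = ε / 2 := by
        rw [hh]
        field_simp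
      nlinarith
    linarith [hx.2]
  rw [hxe] at h1
  have h5 : 0 < h ^ j := by positivity
  nlinarith

end Pool.Agent.Q181.ML
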