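import Pool.Agent.Q181.ML.Biv

set_option autoImplicit false

namespace Pool.Agent.Q181.ML

open PowerSeries Finset Filter Topology

/-- normalised coefficient -/
noncomputable def r (g : ℝ) (n : ℕ) : ℝ := b (1 + g) n / (n : ℝ) ^ g

lemma b_le {g : ℝ} (hg : 0 ≤ g) (n : ℕ) : b (1 + g) n ≤ (1 + g) ^ n := by
  induction n with
  | zero => rw [b_zero, pow_zero]
  | succ n ih =>
    rw [b_succ, pow_succ]
    apply mul_le_mul ih _ _ (by positivity)
    · rw [div_le_iff₀ (by positivity)]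
      have : (0 : ℝ) ≤ n := Nat.cast_nonneg n
      nlinarith
    · positivity

lemma r_nonneg {g : ℝ} (hg : 0 ≤ g) (n : ℕ) : 0 ≤ r g n :=
  div_nonneg (b_nonneg (by linarith) n) (by positivity)

lemma r_succ_le {g : ℝ} (hg : 0 ≤ g) {n : ℕ} (hn : 1 ≤ n) : r g (n + 1) ≤ r g n := by
  have hn' : (0 : ℝ) < n := by exact_mod_cast hn
  rw [r, r, b_succ]
  have h1 : (n : ℝ) ^ g * ((1 + g + n) / (n + 1)) ≤ ((n + 1 : ℕ) : ℝ) ^ g := by
    have h2 : ((n + 1 : ℕ) : ℝ) ^ g = (n : ℝ) ^ g * (1 + 1 / n) ^ g := by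
      rw [← Real.mul_rpow hn'.le (by positivity)]
      congr 1
      push_cast
      field_simp
    rw [h2]
    apply mul_le_mul_of_nonneg_left _ (by positivity)
    have h3 : (1 + g + n) / ((n : ℝ) + 1) = 1 + g * (1 / (n + 1)) := by
      field_simp
      ring
    rw [h3]
    have h4 : (1 : ℝ) / (n + 1) ≤ Real.log (1 + 1 / n) := by
      have h5 := Real.one_sub_inv_le_log_of_pos (show (0 : ℝ) < 1 + 1 / n by positivity)
      have h6 : 1 - (1 + 1 / (n : ℝ))⁻¹ = 1 / (n + 1) := by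
        field_simp
        ring
      rw [h6] at h5
      exact h5
    have h7 : (1 + 1 / (n : ℝ)) ^ g = Real.exp (Real.log (1 + 1 / n) * g) :=
      Real.rpow_def_of_pos (by positivity) g
    rw [h7]
    have h8 := Real.add_one_le_exp (g * (1 / ((n : ℝ) + 1)))
    have h9 : Real.exp (g * (1 / ((n : ℝ) + 1))) ≤ Real.exp (Real.log (1 + 1 / n) * g) := by
      apply Real.exp_le_exp.2
      nlinarith
    linarith
  have hb := b_nonneg (show (0 : ℝ) ≤ 1 + g by linarith) n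
  have hp : 0 < (n : ℝ) ^ g := by positivity
  have hp2 : 0 < ((n + 1 : ℕ) : ℝ) ^ g := by positivity
  rw [div_le_div_iff₀ hp2 hp]
  calc b (1 + g) n * ((1 + g + n) / (n + 1)) * (n : ℝ) ^ g
      = b (1 + g) n * ((n : ℝ) ^ g * ((1 + g + n) / (n + 1))) := by ring
    _ ≤ b (1 + g) n * ((n + 1 : ℕ) : ℝ) ^ g := mul_le_mul_of_nonneg_left h1 hb

lemma r_le {g : ℝ} (hg : 0 ≤ g) {m n : ℕ} (hm : 1 ≤ m) (hmn : m ≤ n) : r g n ≤ r g m := by
  induction n, hmn using Nat.le_induction with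
  | base => exact le_rfl
  | succ n hn ih => exact (r_succ_le hg (hm.trans hn)).trans ih

lemma b_prod (g : ℝ) (n : ℕ) :
    b (1 + g) n * (n.factorial : ℝ) = ∏ j ∈ range n, (1 + g + j) := by
  induction n with
  | zero => simp [b_zero]
  | succ n ih =>
    rw [prod_range_succ, ← ih, Nat.factorial_succ]
    have := b_rec (1 + g) n
    push_cast
    linear_combination (n.factorial : ℝ) * this

lemma r_tendsto {g : ℝ} (hg : 0 ≤ g) : Tendsto (r g) atTop (𝓝 (1 / Real.Gamma (1 + g))) := by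
  have hG : 0 < Real.Gamma (1 + g) := Real.Gamma_pos_of_pos (by linarith)
  have h1 := Real.GammaSeq_tendsto_Gamma (1 + g)
  have h2 : Tendsto (fun n : ℕ => ((1 + g) / n + 1)) atTop (𝓝 (0 + 1)) :=
    (tendsto_const_div_atTop_nhds_zero_nat (1 + g)).add tendsto_const_nhds
  have h3 : Tendsto (fun n : ℕ => 1 / (((1 + g) / n + 1) * Real.GammaSeq (1 + g) n)) atTop
      (𝓝 (1 / ((0 + 1) * Real.Gamma (1 + g)))) := by
    apply Tendsto.div tendsto_const_nhds (h2.mul h1)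
    rw [zero_add, one_mul]
    exact hG.ne'
  rw [zero_add, one_mul] at h3
  apply h3.congr'
  filter_upwards [eventually_ge_atTop 1] with n hn
  have hn' : (0 : ℝ) < n := by exact_mod_cast hn
  rw [r, Real.GammaSeq, prod_range_succ, ← b_prod]
  have hb : 0 < b (1 + g) n := by
    have := b_prod g n
    have h4 : 0 < ∏ j ∈ range n, (1 + g + (j : ℝ)) := by
      apply prod_pos
      intro j _
      positivity
    rw [← this] at h4
    by_contra hcon
    push Not at hcon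
    have h9 : b (1 + g) n * (n.factorial : ℝ) ≤ 0 :=
      mul_nonpos_of_nonpos_of_nonneg hcon (by positivity)
    linarith
  have h5 : (n : ℝ) ^ (1 + g) = n * (n : ℝ) ^ g := by
    rw [Real.rpow_add hn', Real.rpow_one]
  rw [h5]
  have h6 : 0 < (n : ℝ) ^ g := by positivity
  have h7 : (0 : ℝ) < n.factorial := by positivity
  have h8 : (0 : ℝ) < 1 + g + n := by positivity
  field_simp

lemma summable_aux {q c d : ℝ} (hq : 0 ≤ q) (hq1 : q < 1) (hc : 0 ≤ c) (hd : 0 ≤ d) (N : ℕ) :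
    Summable (fun k : ℕ => q ^ k * (d + c * k) ^ N) := by
  have h1 : Summable (fun k : ℕ => (((k : ℕ) : ℝ) ^ N * q ^ k)) :=
    summable_pow_mul_geometric_of_norm_lt_one N (by rwa [Real.norm_of_nonneg hq])
  rcases hq.eq_or_lt with h0 | h0
  · apply summable_of_ne_finset_zero (s := {0})
    intro k hk
    have : k ≠ 0 := by simpa using hk
    rw [← h0, zero_pow this, zero_mul]
  have h2 : Summable (fun k : ℕ => (((k + 1 : ℕ) : ℝ) ^ N * q ^ (k + 1))) :=
    (summable_nat_add_iff 1).2 h1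
  have h3 := (h2.mul_left ((d + c) ^ N / q))
  apply Summable.of_nonneg_of_le _ _ h3
  · intro k; positivity
  · intro k
    have h4 : d + c * k ≤ (d + c) * (k + 1 : ℕ) := by
      have : (0 : ℝ) ≤ k := Nat.cast_nonneg k
      push_cast
      nlinarith [mul_nonneg hd this]
    have h5 : (d + c * k) ^ N ≤ ((d + c) * (k + 1 : ℕ)) ^ N := by
      apply pow_le_pow_left₀ _ h4
      positivity
    calc q ^ k * (d + c * k) ^ N ≤ q ^ k * ((d + c) * (k + 1 : ℕ)) ^ N :=
          mul_le_mul_of_nonneg_left h5 (by positivity)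
      _ = (d + c) ^ N / q * (((k + 1 : ℕ) : ℝ) ^ N * q ^ (k + 1)) := by
          rw [mul_pow, pow_succ q k]
          field_simp

/-- coefficients of the geometric series `∑ (-s)^k (1-z)^(-1-d-c k)` -/
noncomputable def Y (c d s : ℝ) : ℝ⟦X⟧ :=
  PowerSeries.mk (fun n => ∑' k : ℕ, (-s) ^ k * b (1 + (d + c * k)) n)

lemma Y_summable {c d s : ℝ} (hc : 0 ≤ c) (hd : 0 ≤ d) (hs : 0 ≤ s) (hs1 : s < 1) (n : ℕ) :
    Summable (fun k : ℕ => (-s) ^ k * b (1 + (d + c * k)) n) := by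
  apply Summable.of_norm
  apply Summable.of_nonneg_of_le _ _ (summable_aux hs hs1 hc (show 0 ≤ 1 + d by linarith) n)
  · intro k; positivity
  · intro k
    have h1 : 0 ≤ d + c * k := by positivity
    rw [norm_mul, norm_pow, norm_neg, Real.norm_of_nonneg hs,
      Real.norm_of_nonneg (b_nonneg (by linarith) n)]
    apply mul_le_mul_of_nonneg_left _ (by positivity)
    have := b_le h1 n
    rwa [add_assoc]

lemma Y_rel {c d s : ℝ} (hc : 0 ≤ c) (hd : 0 ≤ d) (hs : 0 ≤ s) (hs1 : s < 1) :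
    (P (-c) + C s) * Y c d s = P (1 + d - c) := by
  ext n
  have hsum := fun n => Y_summable hc hd hs hs1 n
  rw [add_mul, map_add, coeff_C_mul, coeff_mul]
  have h1 : ∀ p ∈ antidiagonal n, coeff p.1 (P (-c)) * coeff p.2 (Y c d s)
      = ∑' k : ℕ, b (-c) p.1 * ((-s) ^ k * b (1 + (d + c * k)) p.2) := by
    intro p _
    rw [coeff_P, Y, coeff_mk, tsum_mul_left]
  rw [Finset.sum_congr rfl h1, ← Summable.tsum_finsetSum (fun p _ => (hsum p.2).mul_left _)]
  have h2 : ∀ k : ℕ, ∑ p ∈ antidiagonal n, b (-c) p.1 * ((-s) ^ k * b (1 + (d + c * k)) p.2)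
      = (-s) ^ k * b (1 + (d + c * k) - c) n := by
    intro k
    have h3 := congrArg (coeff n) (P_mul (-c) (1 + (d + c * k)))
    rw [coeff_mul, coeff_P] at h3
    have h4 : -c + (1 + (d + c * k)) = 1 + (d + c * k) - c := by ring
    rw [h4] at h3
    rw [← h3, mul_sum]
    apply Finset.sum_congr rfl
    intro p _
    rw [coeff_P, coeff_P]
    ring
  have h5 : (fun k : ℕ => ∑ p ∈ antidiagonal n, b (-c) p.1 * ((-s) ^ k * b (1 + (d + c * k)) p.2))
      = fun k : ℕ => (-s) ^ k * b (1 + (d + c * k) - c) n := funext h2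
  rw [h5]
  have h6 : ∀ k : ℕ, (-s) ^ (k + 1) * b (1 + (d + c * ((k + 1 : ℕ) : ℝ)) - c) n
      = (-s) * ((-s) ^ k * b (1 + (d + c * k)) n) := by
    intro k
    have : 1 + (d + c * ((k + 1 : ℕ) : ℝ)) - c = 1 + (d + c * k) := by push_cast; ring
    rw [this]
    ring
  have h7 : Summable (fun k : ℕ => (-s) ^ k * b (1 + (d + c * k) - c) n) := by
    rw [← summable_nat_add_iff 1]
    apply ((hsum n).mul_left (-s)).congr
    intro k
    rw [← h6]
  rw [h7.tsum_eq_zero_add]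
  have h8 : ∑' k : ℕ, (-s) ^ (k + 1) * b (1 + (d + c * ((k + 1 : ℕ) : ℝ)) - c) n
      = (-s) * ∑' k : ℕ, ((-s) ^ k * b (1 + (d + c * k)) n) := by
    rw [← tsum_mul_left]
    exact tsum_congr h6
  rw [h8, Y, coeff_mk, coeff_P]
  simp only [pow_zero, Nat.cast_zero, mul_zero, add_zero, one_mul]
  ring

/-- real Mittag-Leffler type series `∑ (-t)^k / Γ(1 + d + c k)` -/
noncomputable def E (c d t : ℝ) : ℝ := ∑' k : ℕ, (-t) ^ k * (1 / Real.Gamma (1 + (d + c * k)))

lemma E_tendsto {c d t : ℝ} (hc : 0 < c) (hd : 0 ≤ d) (ht : 0 ≤ t) :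
    Tendsto (fun n : ℕ => ∑' k : ℕ, (-t) ^ k * r (d + c * k) n) atTop (𝓝 (E c d t)) := by
  obtain ⟨m, hm1, hm⟩ : ∃ m : ℕ, 1 ≤ m ∧ t < (m : ℝ) ^ c := by
    have h1 : Tendsto (fun n : ℕ => ((n : ℝ)) ^ c) atTop atTop :=
      (tendsto_rpow_atTop hc).comp tendsto_natCast_atTop_atTop
    obtain ⟨m, h⟩ := ((h1.eventually_gt_atTop t).and (eventually_ge_atTop 1)).exists
    exact ⟨m, h.2, h.1⟩
  have hm0 : (0 : ℝ) < m := by exact_mod_cast hm1
  have hmc : 0 < (m : ℝ) ^ c := by positivity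
  have hS := summable_aux (show 0 ≤ t / (m : ℝ) ^ c by positivity)
    (show t / (m : ℝ) ^ c < 1 by rwa [div_lt_one hmc]) hc.le (show 0 ≤ 1 + d by linarith) m
  unfold E
  apply tendsto_tsum_of_dominated_convergence (bound := fun k : ℕ =>
    (t / (m : ℝ) ^ c) ^ k * (1 + d + c * k) ^ m * (1 / (m : ℝ) ^ d)) (hS.mul_right _)
  · intro k
    exact (r_tendsto (by positivity)).const_mul _
  · filter_upwards [eventually_ge_atTop m] with n hn k
    have h1 : 0 ≤ d + c * k := by positivity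
    rw [norm_mul, norm_pow, norm_neg, Real.norm_of_nonneg ht,
      Real.norm_of_nonneg (r_nonneg h1 n)]
    have h2 : r (d + c * k) n ≤ r (d + c * k) m := r_le h1 hm1 hn
    have h3 : r (d + c * k) m ≤ (1 + d + c * k) ^ m / ((m : ℝ) ^ d * ((m : ℝ) ^ c) ^ k) := by
      rw [r]
      have h4 : (m : ℝ) ^ (d + c * k) = (m : ℝ) ^ d * ((m : ℝ) ^ c) ^ k := by
        rw [Real.rpow_add hm0, Real.rpow_mul hm0.le, Real.rpow_natCast]
      rw [h4]
      apply div_le_div_of_nonneg_right _ (by positivity)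
      have h5 := b_le h1 m
      rw [show (1 : ℝ) + (d + c * k) = 1 + d + c * k by ring] at h5 ⊢
      exact h5
    calc t ^ k * r (d + c * k) n ≤ t ^ k * ((1 + d + c * k) ^ m / ((m : ℝ) ^ d * ((m : ℝ) ^ c) ^ k)) :=
          mul_le_mul_of_nonneg_left (h2.trans h3) (by positivity)
      _ = (t / (m : ℝ) ^ c) ^ k * (1 + d + c * k) ^ m * (1 / (m : ℝ) ^ d) := by
          rw [div_pow]
          field_simp

lemma Y_coeff_scaled {c d t : ℝ} {n : ℕ} (hn : 1 ≤ n) :
    coeff n (Y c d (t / (n : ℝ) ^ c)) / (n : ℝ) ^ d = ∑' k : ℕ, (-t) ^ k * r (d + c * k) n := by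
  have hn0 : (0 : ℝ) < n := by exact_mod_cast hn
  rw [Y, coeff_mk, ← tsum_div_const]
  apply tsum_congr
  intro k
  have h4 : (n : ℝ) ^ (d + c * k) = (n : ℝ) ^ d * ((n : ℝ) ^ c) ^ k := by
    rw [Real.rpow_add hn0, Real.rpow_mul hn0.le, Real.rpow_natCast]
  rw [r, h4, ← neg_div, div_pow]
  have h5 : 0 < (n : ℝ) ^ c := by positivity
  have h6 : 0 < (n : ℝ) ^ d := by positivity
  field_simp

/-- the function of the problem, in real form -/
noncomputable def F (a t : ℝ) : ℝ := (E (2 * a) 0 t) ^ 2 + t * (E (2 * a) a t) ^ 2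

/-- limits of nonnegative combinations of powers of `1/(1 + e t)` -/
def IsLim (f : ℝ → ℝ) : Prop :=
  ∃ (h : ℕ → ℕ → ℝ) (e : ℕ → ℝ), (∀ n m, 0 ≤ h n m) ∧ (∀ n, 0 ≤ e n) ∧ ∀ t : ℝ, 0 ≤ t →
    Tendsto (fun n : ℕ => ∑ m ∈ range (n + 1), h n m * (1 / (1 + e n * t)) ^ (m + 1)) atTop (𝓝 (f t))

lemma F_isLim {a : ℝ} (h0 : 0 < a) (h1 : a ≤ 1 / 2) : IsLim (F a) := by
  choose h hh1 hh2 using fun n => square_expand' h0.le h1 n
  refine ⟨h, fun n => 1 / (n : ℝ) ^ (2 * a), hh1, fun n => by positivity, ?_⟩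
  intro t ht
  have ha : 0 < 2 * a := by linarith
  have hT := ((E_tendsto ha (le_refl (0 : ℝ)) ht).pow 2).add
    (((E_tendsto ha h0.le ht).pow 2).const_mul t)
  rw [F]
  apply hT.congr'
  have hlarge : ∀ᶠ n : ℕ in atTop, t < (n : ℝ) ^ (2 * a) := by
    have h1 : Tendsto (fun n : ℕ => ((n : ℝ)) ^ (2 * a)) atTop atTop :=
      (tendsto_rpow_atTop ha).comp tendsto_natCast_atTop_atTop
    exact h1.eventually_gt_atTop t
  filter_upwards [hlarge, eventually_ge_atTop 1] with n hn hn1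
  have hn0 : (0 : ℝ) < n := by exact_mod_cast hn1
  have hp : 0 < (n : ℝ) ^ (2 * a) := by positivity
  have hs0 : 0 ≤ t / (n : ℝ) ^ (2 * a) := by positivity
  have hs1 : t / (n : ℝ) ^ (2 * a) < 1 := by rwa [div_lt_one hp]
  have hx := Y_rel ha.le (le_refl (0 : ℝ)) hs0 hs1
  have hu := Y_rel ha.le h0.le hs0 hs1
  rw [show (1 : ℝ) + 0 - 2 * a = 1 - 2 * a by ring] at hx
  rw [show (1 : ℝ) + a - 2 * a = 1 - a by ring] at hu
  have hkey := hh2 n _ hs0 _ _ hx hu
  have e1 : (1 / (1 + 1 / (n : ℝ) ^ (2 * a) * t)) = 1 / (1 + t / (n : ℝ) ^ (2 * a)) := by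
    congr 2
    ring
  rw [e1, ← hkey, ← Y_coeff_scaled hn1, ← Y_coeff_scaled hn1, Real.rpow_zero, div_one, div_pow]
  have e2 : (((n : ℝ)) ^ a) ^ 2 = (n : ℝ) ^ (2 * a) := by
    rw [← Real.rpow_natCast, ← Real.rpow_mul hn0.le]
    congr 1
    push_cast
    ring
  rw [e2]
  ring

end Pool.Agent.Q181.ML
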