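import Pool.Agent.Q181.ML.Dif

set_option autoImplicit false

namespace Pool.Agent.Q181.ML

open Finset Filter Topology

lemma IsLim.nonneg {f : ℝ → ℝ} (hf : IsLim f) {t : ℝ} (ht : 0 ≤ t) : 0 ≤ f t :=
  hf.D_nonneg one_pos 0 ht

lemma term_logconvex {e x y a b : ℝ} (he : 0 ≤ e) (hx : 0 ≤ x) (hy : 0 ≤ y) (ha : 0 < a)
    (hb : 0 < b) (hab : a + b = 1) (m : ℕ) :
    (1 / (1 + e * (a * x + b * y))) ^ (m + 1)
      ≤ ((1 / (1 + e * x)) ^ (m + 1)) ^ a * ((1 / (1 + e * y)) ^ (m + 1)) ^ b := by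
  have h1 : 0 < 1 + e * x := by positivity
  have h2 : 0 < 1 + e * y := by positivity
  have h3 := Real.geom_mean_le_arith_mean2_weighted ha.le hb.le h1.le h2.le hab
  have h4 : a * (1 + e * x) + b * (1 + e * y) = 1 + e * (a * x + b * y) := by
    linear_combination hab
  rw [h4] at h3
  have h5 : 0 < (1 + e * x) ^ a * (1 + e * y) ^ b := by positivity
  have h6 : ((1 / (1 + e * x)) ^ (m + 1)) ^ a * ((1 / (1 + e * y)) ^ (m + 1)) ^ b
      = (1 / ((1 + e * x) ^ a * (1 + e * y) ^ b)) ^ (m + 1) := by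
    have e1 : ∀ u c : ℝ, 0 < u → ((1 / u) ^ (m + 1)) ^ c = (1 / u ^ c) ^ (m + 1) := by
      intro u c hu
      rw [← Real.rpow_natCast, ← Real.rpow_natCast, ← Real.rpow_mul (by positivity), mul_comm,
        Real.rpow_mul (by positivity), Real.div_rpow zero_le_one hu.le, Real.one_rpow]
    rw [e1 _ _ h1, e1 _ _ h2, ← mul_pow]
    congr 1
    field_simp
  rw [h6]
  apply pow_le_pow_left₀ (by positivity)
  exact one_div_le_one_div_of_le h5 h3

lemma IsLim.logconvex {f : ℝ → ℝ} (hf : IsLim f) {x y a b : ℝ} (hx : 0 ≤ x) (hy : 0 ≤ y)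
    (ha : 0 < a) (hb : 0 < b) (hab : a + b = 1) :
    f (a * x + b * y) ≤ f x ^ a * f y ^ b := by
  obtain ⟨w, e, hw, he, hlim⟩ := hf
  have hL := hlim (a * x + b * y) (by positivity)
  have hX := (hlim x hx).rpow_const (p := a) (Or.inr ha.le)
  have hY := (hlim y hy).rpow_const (p := b) (Or.inr hb.le)
  apply le_of_tendsto_of_tendsto' hL (hX.mul hY)
  intro n
  have hconj : (1 / a).HolderConjugate (1 / b) := by
    simpa using Real.HolderConjugate.inv_inv ha hb hab
  have h1 := Real.inner_le_Lp_mul_Lq_of_nonneg (s := range (n + 1))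
    (f := fun m => (w n m * (1 / (1 + e n * x)) ^ (m + 1)) ^ a)
    (g := fun m => (w n m * (1 / (1 + e n * y)) ^ (m + 1)) ^ b) hconj
    (fun m _ => by have := hw n m; have := he n; positivity)
    (fun m _ => by have := hw n m; have := he n; positivity)
  have h2 : ∀ m, ((w n m * (1 / (1 + e n * x)) ^ (m + 1)) ^ a) ^ (1 / a)
      = w n m * (1 / (1 + e n * x)) ^ (m + 1) := by
    intro m
    have := hw n m
    have := he n
    rw [← Real.rpow_mul (by positivity), mul_one_div_cancel ha.ne', Real.rpow_one]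
  have h3 : ∀ m, ((w n m * (1 / (1 + e n * y)) ^ (m + 1)) ^ b) ^ (1 / b)
      = w n m * (1 / (1 + e n * y)) ^ (m + 1) := by
    intro m
    have := hw n m
    have := he n
    rw [← Real.rpow_mul (by positivity), mul_one_div_cancel hb.ne', Real.rpow_one]
  simp only [h2, h3, one_div_one_div] at h1
  refine le_trans ?_ h1
  apply Finset.sum_le_sum
  intro m _
  have hwm := hw n m
  have hen := he n
  rw [Real.mul_rpow hwm (by positivity), Real.mul_rpow hwm (by positivity)]
  have h4 := term_logconvex (he n) hx hy ha hb hab m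
  have h5 : w n m = w n m ^ a * w n m ^ b := by
    rw [← Real.rpow_add_of_nonneg hwm ha.le hb.le, hab, Real.rpow_one]
  calc w n m * (1 / (1 + e n * (a * x + b * y))) ^ (m + 1)
      ≤ w n m * (((1 / (1 + e n * x)) ^ (m + 1)) ^ a * ((1 / (1 + e n * y)) ^ (m + 1)) ^ b) :=
        mul_le_mul_of_nonneg_left h4 hwm
    _ = (w n m ^ a * w n m ^ b)
        * (((1 / (1 + e n * x)) ^ (m + 1)) ^ a * ((1 / (1 + e n * y)) ^ (m + 1)) ^ b) := by
        rw [← h5]
    _ = _ := by ring

/-- positivity propagates from `0` -/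
lemma IsLim.pos {f : ℝ → ℝ} (hf : IsLim f) (h0 : 0 < f 0) (hc : Continuous f) {t : ℝ}
    (ht : 0 ≤ t) : 0 < f t := by
  -- doubling
  have hdouble : ∀ s : ℝ, 0 ≤ s → 0 < f s → 0 < f (2 * s) := by
    intro s hs hpos
    by_contra hcon
    push Not at hcon
    have h1 : f (2 * s) = 0 := le_antisymm hcon (hf.nonneg (by linarith))
    have h2 := hf.logconvex (le_refl (0 : ℝ)) (show 0 ≤ 2 * s by linarith)
      (show (0 : ℝ) < 1 / 2 by norm_num) (show (0 : ℝ) < 1 / 2 by norm_num) (by norm_num)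
    have h3 : (1 : ℝ) / 2 * 0 + 1 / 2 * (2 * s) = s := by ring
    rw [h3, h1, Real.zero_rpow (by norm_num), mul_zero] at h2
    linarith
  have hsmall : ∀ᶠ n : ℕ in atTop, 0 < f (t / 2 ^ n) := by
    have h1 : Tendsto (fun n : ℕ => t / 2 ^ n) atTop (𝓝 0) := by
      have := (tendsto_pow_atTop_nhds_zero_of_lt_one (r := (1 / 2 : ℝ)) (by norm_num)
        (by norm_num)).const_mul t
      rw [mul_zero] at this
      apply this.congr
      intro n
      rw [one_div, inv_pow]
      rfl
    exact (hc.tendsto 0).comp h1 |>.eventually (lt_mem_nhds h0)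
  obtain ⟨n, hn⟩ := hsmall.exists
  have hback : ∀ k : ℕ, k ≤ n → 0 < f (t / 2 ^ (n - k)) := by
    intro k
    induction k with
    | zero => intro _; exact hn
    | succ k ih =>
      intro hk
      have h1 := hdouble _ (by positivity) (ih (by omega))
      have h2 : 2 * (t / 2 ^ (n - k)) = t / 2 ^ (n - (k + 1)) := by
        have h3 : n - k = (n - (k + 1)) + 1 := by omega
        rw [h3, pow_succ]
        field_simp
      rwa [h2] at h1
  have := hback n le_rfl
  simpa using this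

lemma Gamma_inv_le {g : ℝ} (hg : 0 ≤ g) {m : ℕ} (hm : 1 ≤ m) :
    1 / Real.Gamma (1 + g) ≤ r g m := by
  apply le_of_tendsto (r_tendsto hg)
  filter_upwards [eventually_ge_atTop m] with n hn
  exact r_le hg hm hn

lemma coeff_summable {c d : ℝ} (hc : 0 < c) (hd : 0 ≤ d) {t : ℝ} (ht : 0 ≤ t) :
    Summable (fun k : ℕ => (1 / Real.Gamma (1 + (d + c * k))) * t ^ k) := by
  obtain ⟨m, hm1, hm⟩ : ∃ m : ℕ, 1 ≤ m ∧ t < (m : ℝ) ^ c := by
    have h1 : Tendsto (fun n : ℕ => ((n : ℝ)) ^ c) atTop atTop :=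
      (tendsto_rpow_atTop hc).comp tendsto_natCast_atTop_atTop
    obtain ⟨m, h⟩ := ((h1.eventually_gt_atTop t).and (eventually_ge_atTop 1)).exists
    exact ⟨m, h.2, h.1⟩
  have hm0 : (0 : ℝ) < m := by exact_mod_cast hm1
  have hmc : 0 < (m : ℝ) ^ c := by positivity
  have hS := summable_aux (show 0 ≤ t / (m : ℝ) ^ c by positivity)
    (show t / (m : ℝ) ^ c < 1 by rwa [div_lt_one hmc]) hc.le (show 0 ≤ 1 + d by linarith) m
  apply Summable.of_nonneg_of_le _ _ (hS.mul_right (1 / (m : ℝ) ^ d))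
  · intro k
    have : 0 < Real.Gamma (1 + (d + c * k)) := Real.Gamma_pos_of_pos (by positivity)
    positivity
  · intro k
    have h1 : 0 ≤ d + c * k := by positivity
    have h2 := Gamma_inv_le h1 hm1
    have h3 : r (d + c * k) m ≤ (1 + d + c * k) ^ m / ((m : ℝ) ^ d * ((m : ℝ) ^ c) ^ k) := by
      rw [r]
      have h4 : (m : ℝ) ^ (d + c * k) = (m : ℝ) ^ d * ((m : ℝ) ^ c) ^ k := by
        rw [Real.rpow_add hm0, Real.rpow_mul hm0.le, Real.rpow_natCast]
      rw [h4]
      apply div_le_div_of_nonneg_right _ (by positivity)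
      have h5 := b_le h1 m
      rw [show (1 : ℝ) + (d + c * k) = 1 + d + c * k by ring] at h5 ⊢
      exact h5
    calc (1 / Real.Gamma (1 + (d + c * k))) * t ^ k
        ≤ ((1 + d + c * k) ^ m / ((m : ℝ) ^ d * ((m : ℝ) ^ c) ^ k)) * t ^ k :=
          mul_le_mul_of_nonneg_right (h2.trans h3) (by positivity)
      _ = (t / (m : ℝ) ^ c) ^ k * (1 + d + c * k) ^ m * (1 / (m : ℝ) ^ d) := by
          rw [div_pow]
          field_simp

lemma E_contDiff {c d : ℝ} (hc : 0 < c) (hd : 0 ≤ d) : ContDiff ℝ ⊤ (E c d) := by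
  set q : ℕ → ℝ := fun k => 1 / Real.Gamma (1 + (d + c * k)) with hq
  set p := FormalMultilinearSeries.ofScalars ℝ q with hp
  have hqn : ∀ k, 0 ≤ q k := by
    intro k
    have : 0 < Real.Gamma (1 + (d + c * k)) := Real.Gamma_pos_of_pos (by positivity)
    rw [hq]
    positivity
  have hr : p.radius = ⊤ := by
    apply FormalMultilinearSeries.radius_eq_top_of_summable_norm
    intro r
    apply (coeff_summable hc hd r.2).congr
    intro k
    rw [hp, FormalMultilinearSeries.ofScalars_norm, Real.norm_of_nonneg (hqn k)]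
    rfl
  have hps := p.hasFPowerSeriesOnBall (by rw [hr]; simp)
  rw [hr] at hps
  have han : AnalyticOnNhd ℝ p.sum Set.univ := by
    have := hps.analyticOnNhd
    simpa using this
  have h1 : ContDiff ℝ ⊤ p.sum := han.contDiff
  have h2 : E c d = fun t => p.sum (-t) := by
    funext t
    have := FormalMultilinearSeries.ofScalars_sum_eq (E := ℝ) q (-t)
    unfold FormalMultilinearSeries.ofScalarsSum at this
    rw [← hp] at this
    rw [this, E]
    apply tsum_congr
    intro k
    rw [smul_eq_mul, mul_comm]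
  rw [h2]
  exact h1.comp contDiff_neg

lemma F_contDiff {a : ℝ} (h0 : 0 < a) : ContDiff ℝ ⊤ (F a) := by
  have h1 := E_contDiff (show 0 < 2 * a by linarith) (le_refl (0 : ℝ))
  have h2 := E_contDiff (show 0 < 2 * a by linarith) h0.le
  exact (h1.pow 2).add (contDiff_id.mul (h2.pow 2))

lemma F_zero (a : ℝ) : F a 0 = 1 := by
  rw [F, zero_mul, add_zero, E, tsum_eq_single 0]
  · simp
  · intro k hk
    rw [neg_zero, zero_pow hk, zero_mul]

end Pool.Agent.Q181.ML
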